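import Pool.Agent.W321.SQ.Stm
import Pool.Agent.H115G.MkPD
import Pool.Agent.H115R4.TreeDefs

set_option autoImplicit false

namespace Pool.Agent.W636.SQ

open Finset Pool.Agent.W321.SP Pool.Agent.W321.SQ

/-- verbatim copy of `Pool.Agent.W321.SQ.Machine4` -/
def Machine4' : Prop := ∀ (ε : ℝ) (P₀ : ℕ), 0 < ε → ε ≤ 1 / 10 → ∃ g₁ g₂ g₃ : ℕ, P₀ < g₁ ∧ g₁.Prime ∧
    g₂.Prime ∧ g₃.Prime ∧ g₁ < g₂ ∧ g₂ < g₃ ∧ ∀ β₀ : ℝ, 0 < β₀ → ∃ B m₀ : ℕ,
      ∀ (m n : ℕ) (par : ℕ → ℕ), m₀ ≤ m → (n : ℝ) ≤ (1 - ε / 2) * m + 1 → 0 < n →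
      (∀ i, 0 < i → i < n → par i < i) → B ≤ H115R4.ch n par 0 →
      ∃ g : ℕ → ℕ, (∀ i < n, (g i : ℝ) ≤ (1 - ε / 8) * m) ∧ g 0 = 0 ∧
        H115R4.PLab par (range n) g ∧
        ((H115G.LL n g \ H115G.DD n par g).card : ℝ) ≤ β₀ * m ∧
        ∀ e ∈ H115G.LL n g ∪ H115G.DD n par g,
          Nat.Coprime e (g₁ * g₂ * g₃) ∨ g₁ * g₂ * g₃ ∣ e

/-- enumeration of a finite set closed under parents -/
theorem exists_idx {V : Type} [DecidableEq V] (W : Finset V) (v : V) (pc : V → V) (rk : V → ℕ)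
    (hv : v ∈ W) (hcl : ∀ x ∈ W, x ≠ v → pc x ∈ W ∧ rk (pc x) < rk x) :
    ∃ (idx : V → ℕ) (e : ℕ → V), (∀ x ∈ W, idx x < W.card) ∧ (∀ x ∈ W, e (idx x) = x) ∧
      (∀ i < W.card, e i ∈ W ∧ idx (e i) = i) ∧ idx v = 0 ∧
      ∀ x ∈ W, ∀ y ∈ W, rk x < rk y → idx x < idx y := by
  classical
  have hmin : ∀ k : ℕ, ∀ x ∈ W, rk x = k → x ≠ v → rk v < rk x := by
    intro k
    induction k using Nat.strong_induction_on with
    | _ k ih =>
      intro x hx hk hne
      obtain ⟨h1, h2⟩ := hcl x hx hne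
      by_cases h3 : pc x = v
      · rw [h3] at h2; exact h2
      · have := ih (rk (pc x)) (by omega) (pc x) h1 rfl h3
        omega
  set n := W.card with hn
  let a : V → ℕ := fun x => if h : x ∈ W then (W.equivFin ⟨x, h⟩ : ℕ) else 0
  have ha_lt : ∀ x ∈ W, a x < n := by
    intro x hx
    simp only [a, dif_pos hx]
    exact (W.equivFin ⟨x, hx⟩).2
  have ha_inj : ∀ x ∈ W, ∀ y ∈ W, a x = a y → x = y := by
    intro x hx y hy h
    simp only [a, dif_pos hx, dif_pos hy] at h
    have h1 := W.equivFin.injective (Fin.ext h)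
    exact congrArg Subtype.val h1
  let key : V → ℕ := fun x => rk x * n + a x
  have hkey : ∀ x ∈ W, ∀ y ∈ W, rk x < rk y → key x < key y := by
    intro x hx y hy h
    have h1 := ha_lt x hx
    have h2 : (rk x + 1) * n ≤ rk y * n := Nat.mul_le_mul_right n h
    have h3 : (rk x + 1) * n = rk x * n + n := by ring
    simp only [key]
    omega
  have hkey_inj : ∀ x ∈ W, ∀ y ∈ W, key x = key y → x = y := by
    intro x hx y hy h
    rcases lt_trichotomy (rk x) (rk y) with h1 | h1 | h1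
    · exact absurd h (hkey x hx y hy h1).ne
    · simp only [key] at h
      rw [h1] at h
      exact ha_inj x hx y hy (by omega)
    · exact absurd h.symm (hkey y hy x hx h1).ne
  let idx : V → ℕ := fun x => (W.filter (fun y => key y < key x)).card
  have hlt : ∀ x ∈ W, ∀ y ∈ W, key x < key y → idx x < idx y := by
    intro x hx y hy h
    apply Finset.card_lt_card
    rw [Finset.ssubset_iff_of_subset]
    · refine ⟨x, ?_, ?_⟩
      · simp only [mem_filter]; exact ⟨hx, h⟩
      · simp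
    · intro z hz
      simp only [mem_filter] at hz ⊢
      exact ⟨hz.1, hz.2.trans h⟩
  have hinj : ∀ x ∈ W, ∀ y ∈ W, idx x = idx y → x = y := by
    intro x hx y hy h
    apply hkey_inj x hx y hy
    rcases lt_trichotomy (key x) (key y) with h1 | h1 | h1
    · exact absurd h (hlt x hx y hy h1).ne
    · exact h1
    · exact absurd h.symm (hlt y hy x hx h1).ne
  have hidx_lt : ∀ x ∈ W, idx x < n := by
    intro x hx
    apply Finset.card_lt_card
    rw [Finset.ssubset_iff_of_subset (Finset.filter_subset _ _)]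
    exact ⟨x, hx, by simp⟩
  have hsurj : ∀ i < n, ∃ x ∈ W, idx x = i := by
    have himg : W.image idx = range n := by
      apply Finset.eq_of_subset_of_card_le
      · intro i hi
        obtain ⟨x, hx, rfl⟩ := Finset.mem_image.1 hi
        exact Finset.mem_range.2 (hidx_lt x hx)
      · rw [Finset.card_range, Finset.card_image_of_injOn (fun x hx y hy h => hinj x hx y hy h)]
    intro i hi
    have : i ∈ W.image idx := by rw [himg]; exact Finset.mem_range.2 hi
    obtain ⟨x, hx, h⟩ := Finset.mem_image.1 this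
    exact ⟨x, hx, h⟩
  let e : ℕ → V := fun i => if h : i < n then (hsurj i h).choose else v
  have he : ∀ i < n, e i ∈ W ∧ idx (e i) = i := by
    intro i hi
    simp only [e, dif_pos hi]
    exact (hsurj i hi).choose_spec
  have hidx_v : idx v = 0 := by
    simp only [idx]
    rw [Finset.card_eq_zero, Finset.filter_eq_empty_iff]
    intro y hy h
    by_cases hyv : y = v
    · subst hyv; exact lt_irrefl _ h
    · have h1 := hmin (rk y) y hy rfl hyv
      have h2 := hkey v hv y hy h1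
      omega
  refine ⟨idx, e, hidx_lt, ?_, he, hidx_v, fun x hx y hy h => hlt x hx y hy (hkey x hx y hy h)⟩
  intro x hx
  have h1 := he (idx x) (hidx_lt x hx)
  exact hinj _ h1.1 _ hx h1.2

theorem natAbs_ad (a b : ℕ) : Int.natAbs ((a : ℤ) - b) = ad a b := by
  unfold ad; omega

theorem z_mv (hM : Machine4') : MvStm := by
  classical
  intro ε P₀ hε hε1
  obtain ⟨g₁, g₂, g₃, hP, hp1, hp2, hp3, h12, h23, H⟩ := hM ε P₀ hε hε1
  refine ⟨g₁, g₂, g₃, hP, hp1, hp2, hp3, h12, h23, ?_⟩
  intro β₀ hβ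
  obtain ⟨B, m₀, H⟩ := H β₀ hβ
  refine ⟨B, m₀, ?_⟩
  intro m V _ W v pc rk hm hv hcard hcl hB
  obtain ⟨idx, e, hlt, heidx, he, hidx_v, hmono⟩ := exists_idx W v pc rk hv hcl
  have hinj : ∀ x ∈ W, ∀ y ∈ W, idx x = idx y → x = y := by
    intro x hx y hy h
    rw [← heidx x hx, h, heidx y hy]
  have hpos : ∀ x ∈ W, x ≠ v → 0 < idx x := by
    intro x hx hne
    rcases Nat.eq_zero_or_pos (idx x) with h | h
    · exact absurd (hinj x hx v hv (by rw [h, hidx_v])) hne
    · exact h
  have hne : ∀ i, 0 < i → i < W.card → e i ≠ v := by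
    intro i h0 hi h
    have := (he i hi).2
    rw [h, hidx_v] at this
    omega
  let par : ℕ → ℕ := fun i => idx (pc (e i))
  have hpar : ∀ x ∈ W, par (idx x) = idx (pc x) := by
    intro x hx
    simp only [par]
    rw [heidx x hx]
  have himg : (range W.card).filter (fun i => 0 < i) = (W.erase v).image idx := by
    ext i
    simp only [mem_filter, mem_range, mem_image, mem_erase]
    constructor
    · rintro ⟨hi, h0⟩
      exact ⟨e i, ⟨hne i h0 hi, (he i hi).1⟩, (he i hi).2⟩
    · rintro ⟨x, ⟨hx1, hx2⟩, rfl⟩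
      exact ⟨hlt x hx2, hpos x hx2 hx1⟩
  have hpl : ∀ i, 0 < i → i < W.card → par i < i := by
    intro i h0 hi
    have h1 := he i hi
    have h2 := hcl (e i) h1.1 (hne i h0 hi)
    have h3 := hmono (pc (e i)) h2.1 (e i) h1.1 h2.2
    rw [h1.2] at h3
    exact h3
  have hch : B ≤ H115R4.ch W.card par 0 := by
    refine hB.trans (le_of_eq ?_)
    unfold H115R4.ch
    refine Finset.card_nbij' idx e ?_ ?_ ?_ ?_
    · intro x hx
      simp only [coe_filter, mem_range, Set.mem_ofPred_eq] at hx ⊢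
      obtain ⟨hx1, hx2, hp⟩ := hx
      refine ⟨hlt x hx1, hpos x hx1 hx2, ?_⟩
      rw [hpar x hx1, hp, hidx_v]
    · intro i hi
      simp only [coe_filter, mem_range, Set.mem_ofPred_eq] at hi ⊢
      obtain ⟨hi, h0, hp⟩ := hi
      refine ⟨(he i hi).1, hne i h0 hi, ?_⟩
      exact hinj _ (hcl _ (he i hi).1 (hne i h0 hi)).1 _ hv (by rw [hidx_v]; exact hp)
    · intro x hx
      simp only [coe_filter, Set.mem_ofPred_eq] at hx
      exact heidx x hx.1
    · intro i hi
      simp only [coe_filter, mem_range, Set.mem_ofPred_eq] at hi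
      exact (he i hi.1).2
  obtain ⟨g, hgm, hg0, ⟨hginj, hgd⟩, hLD, hco⟩ := H m W.card par hm hcard
    (Finset.card_pos.2 ⟨v, hv⟩) hpl hch
  have hdf : ∀ x ∈ W, H115R4.df par g (idx x) = ad (g (idx x)) (g (idx (pc x))) := by
    intro x hx
    unfold H115R4.df
    rw [hpar x hx, natAbs_ad]
  have hLL : H115G.LL W.card g = (W.erase v).image (fun x => g (idx x)) := by
    unfold H115G.LL
    rw [himg, Finset.image_image]
    rfl
  have hDD : H115G.DD W.card par g =
      (W.erase v).image (fun x => ad (g (idx x)) (g (idx (pc x)))) := by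
    unfold H115G.DD
    rw [himg, Finset.image_image]
    apply Finset.image_congr
    intro x hx
    exact hdf x (Finset.mem_of_mem_erase hx)
  refine ⟨fun x => g (idx x), ?_, ?_, ?_, ?_, ?_, ?_⟩
  · show g (idx v) = 0
    rw [hidx_v, hg0]
  · intro x hx
    exact hgm _ (hlt x hx)
  · intro x hx y hy h
    exact hinj x hx y hy (hginj _ (mem_range.2 (hlt x hx)) _ (mem_range.2 (hlt y hy)) h)
  · intro x hx y hy h
    have hx' := Finset.mem_of_mem_erase hx
    have hy' := Finset.mem_of_mem_erase hy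
    have hmem : ∀ z ∈ W.erase v, idx z ∈ H115R4.ed par (range W.card) := by
      intro z hz
      have hz' := Finset.mem_of_mem_erase hz
      have hzv := Finset.ne_of_mem_erase hz
      unfold H115R4.ed
      rw [mem_filter, mem_range, mem_range, hpar z hz']
      exact ⟨hlt z hz', hpos z hz' hzv, hlt _ (hcl z hz' hzv).1⟩
    refine hinj x hx' y hy' (hgd _ (hmem x hx) _ (hmem y hy) ?_)
    rw [hdf x hx', hdf y hy']
    exact h
  · rw [← hLL, ← hDD]
    exact hLD
  · rw [← hLL, ← hDD]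
    exact hco

end Pool.Agent.W636.SQ
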